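import Pool.Agent.H71.CN.Asm

/-!
# Weak linkage of graphs in which nonadjacent vertices have many common neighbours

All graphs are finite and simple. A vertex of degree `d` can be joined to another vertex by at most
`d` edge-disjoint paths, so `K ≤ min degree` is necessary for the linkage of all systems of `K`
pairs.
-/

set_option autoImplicit false

namespace Pool.Agent.Results.MP_b683d6_co.CommonNeighbours

open Finset Classical

section
variable {V : Type} [Fintype V]

/-- the degree of `x` -/
noncomputable def deg (G : SimpleGraph V) (x : V) : ℕ := (univ.filter (fun y => G.Adj x y)).card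

/-- the number of common neighbours of `x` and `y` -/
noncomputable def common (G : SimpleGraph V) (x y : V) : ℕ :=
  (univ.filter (fun z => G.Adj x z ∧ G.Adj y z)).card

/-- there are pairwise edge-disjoint paths joining `u i` and `v i`, for all `i` -/
def Linked {K : ℕ} (G : SimpleGraph V) (u v : Fin K → V) : Prop :=
  ∃ P : ∀ i, G.Walk (u i) (v i), (∀ i, (P i).IsPath) ∧
    ∀ i j, i ≠ j → ∀ e ∈ (P i).edges, e ∉ (P j).edges

end

/-- **Weak linkage up to the minimum degree.** Let `K ≥ 1681`, and let `G` be a simple graph of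
minimum degree at least `K` in which any two distinct nonadjacent vertices have at least `20 ⌈√K⌉`
common neighbours. Then all systems of `K` pairs of vertices are linked by pairwise edge-disjoint
paths. -/
theorem result (K : ℕ) (hK : 1681 ≤ K) (V : Type) [Fintype V] (G : SimpleGraph V)
    (hdeg : ∀ x, K ≤ deg G x)
    (hcom : ∀ x y, x ≠ y → ¬ G.Adj x y → 20 * ⌈√(K : ℝ)⌉₊ ≤ common G x y)
    (u v : Fin K → V) : Linked G u v := by
  obtain ⟨t, ht⟩ : ∃ t, t = ⌈√(K : ℝ)⌉₊ := ⟨_, rfl⟩
  have h0 : (0 : ℝ) ≤ (K : ℝ) := Nat.cast_nonneg K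
  have h1 : √(K : ℝ) ≤ t := ht ▸ Nat.le_ceil _
  have h2 : (t : ℝ) < √(K : ℝ) + 1 := ht ▸ Nat.ceil_lt_add_one (Real.sqrt_nonneg _)
  have h3 : √(K : ℝ) ^ 2 = K := Real.sq_sqrt h0
  have h41 : (41 : ℝ) ≤ √(K : ℝ) := by
    apply Real.le_sqrt_of_sq_le
    have : ((1681 : ℕ) : ℝ) ≤ (K : ℝ) := Nat.cast_le.2 hK
    norm_num at this ⊢
    exact this
  have hKt : K ≤ t ^ 2 := by
    have h4 : (K : ℝ) ≤ ((t ^ 2 : ℕ) : ℝ) := by
      push_cast
      nlinarith [Real.sqrt_nonneg (K : ℝ)]
    exact_mod_cast h4
  have hKt2 : 40 * t + 1 ≤ K := by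
    by_cases h5 : t ≤ 41
    · omega
    · have h6 : (41 : ℕ) + 1 ≤ t := by omega
      have h7 : (t - 1) ^ 2 < K := by
        have h8 : (((t - 1 : ℕ) : ℝ)) < √(K : ℝ) := by
          rw [Nat.cast_sub (by omega)]
          push_cast
          linarith
        have h9 : (((t - 1) ^ 2 : ℕ) : ℝ) < (K : ℝ) := by
          push_cast
          rw [← h3]
          have h10 : (0 : ℝ) ≤ ((t - 1 : ℕ) : ℝ) := Nat.cast_nonneg _
          nlinarith [Real.sqrt_nonneg (K : ℝ)]
        exact_mod_cast h9
      obtain ⟨s, rfl⟩ : ∃ s, t = s + 1 := ⟨t - 1, by omega⟩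
      rw [Nat.add_sub_cancel] at h7
      have h8 : 41 ≤ s := by omega
      nlinarith
  have ht1 : 1 ≤ t := by
    rcases Nat.eq_zero_or_pos t with h5 | h5
    · rw [h5] at hKt
      omega
    · exact h5
  refine Pool.Agent.H71.CN.lk_hyp G K t ht1 hKt hdeg ?_ u v
  intro a b hab
  by_cases hc : 20 * t ≤ common G a b
  · exact Or.inl hc
  · right
    have hadj : G.Adj a b := by
      by_contra hn
      exact hc (ht ▸ hcom a b hab hn)
    have h5 : univ.filter (fun w => G.Adj a w) ⊆
        univ.filter (fun z => G.Adj a z ∧ G.Adj b z) ∪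
          univ.filter (fun w => G.Adj a w ∧ (w = b ∨ 20 * t ≤ common G w b)) := by
      intro w hw
      rw [mem_filter] at hw
      rw [mem_union, mem_filter, mem_filter]
      by_cases h6 : G.Adj b w
      · exact Or.inl ⟨mem_univ _, hw.2, h6⟩
      · refine Or.inr ⟨mem_univ _, hw.2, ?_⟩
        by_cases h7 : w = b
        · exact Or.inl h7
        · exact Or.inr (ht ▸ hcom w b h7 (fun h8 => h6 h8.symm))
    have h6 := (card_le_card h5).trans (card_union_le _ _)
    have h7 := hdeg a
    unfold deg at h7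
    unfold common at hc
    have h8 : 20 * t ≤
        (univ.filter (fun w => G.Adj a w ∧ (w = b ∨ 20 * t ≤ common G w b))).card := by
      omega
    exact h8

end Pool.Agent.Results.MP_b683d6_co.CommonNeighbours
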