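import Pool.Agent.H71.WE.All

/-!
# Weak linkage in the Eulerian case and for graphs with a spare connected spanning subgraph

A multigraph is given by `src tgt : Fin e → Fin n`.  `cut src tgt A S` is the number of edges of
`A` with exactly one end in `S`.  `Connects src tgt F a b`: the set of edges `F` meets every cut
that separates `a` from `b` (equivalently, `F` contains a path from `a` to `b`).
`ends u v w` is the number of times the vertex `w` occurs in the pairs `(u i, v i)`, and
`load src tgt u v ω w` is the sum of degree plus occurrences over all vertices `x` with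
`ω x = w`.  A vertex is special if it occurs in the pairs or if its load is odd.
-/

set_option autoImplicit false

namespace Pool.Agent.Results.MP_b683d6_co.EulerianLinkage

open Finset

/-- number of edges of `A` with exactly one end in `S` -/
def cut {n e : ℕ} (src tgt : Fin e → Fin n) (A : Finset (Fin e)) (S : Finset (Fin n)) : ℕ :=
  (A.filter (fun x : Fin e =>
    (src x ∈ S ∧ tgt x ∉ S) ∨ (src x ∉ S ∧ tgt x ∈ S))).card

/-- `F` contains a path from `a` to `b` (cut form) -/
def Connects {n e : ℕ} (src tgt : Fin e → Fin n) (F : Finset (Fin e)) (a b : Fin n) : Prop :=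
  ∀ S : Finset (Fin n), a ∈ S → b ∉ S →
    ∃ x ∈ F, (src x ∈ S ∧ tgt x ∉ S) ∨ (src x ∉ S ∧ tgt x ∈ S)

/-- number of occurrences of `w` in the pairs `(u i, v i)` -/
def ends {n m : ℕ} (u v : Fin m → Fin n) (w : Fin n) : ℕ :=
  (Finset.univ.filter (fun i => u i = w)).card + (Finset.univ.filter (fun i => v i = w)).card

/-- sum of degree plus occurrences over the vertices `x` with `ω x = w` -/
def load {n e m : ℕ} (src tgt : Fin e → Fin n) (u v : Fin m → Fin n) (ω : Fin n → Fin n)
    (w : Fin n) : ℕ :=
  ∑ x ∈ Finset.univ.filter (fun x => ω x = w), (cut src tgt Finset.univ {x} + ends u v x)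

/-- the vertex `w` occurs in the pairs or has odd load -/
def Special {n e m : ℕ} (src tgt : Fin e → Fin n) (u v : Fin m → Fin n) (ω : Fin n → Fin n)
    (w : Fin n) : Prop :=
  ends u v w ≠ 0 ∨ Odd (load src tgt u v ω w)

/-- **Thomassen's weak linkage conjecture in the Eulerian case, with defect, in terminal form,
and for graphs with a spare connected spanning subgraph.** -/
theorem result (k m n e : ℕ) (src tgt : Fin e → Fin n) (u v : Fin m → Fin n)
    (A : Finset (Fin e)) (ω : Fin n → Fin n) (hω : ∀ x, Connects src tgt Aᶜ x (ω x))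
    (hcut : ∀ (S : Finset (Fin n)) (a b : Fin n), a ∈ S → b ∉ S →
      Special src tgt u v ω a → Special src tgt u v ω b → 2 * k ≤ cut src tgt A S)
    (hodd : 2 * m + (Finset.univ.filter (fun w : Fin n =>
      Odd (load src tgt u v ω w))).card ≤ 4 * k + 2) :
    ∃ F : Fin m → Finset (Fin e), (∀ i i', i ≠ i' → Disjoint (F i) (F i')) ∧
      ∀ i, Connects src tgt (F i) (u i) (v i) := by
  have hu : A ∪ Aᶜ = univ := union_compl A
  have h0 : ∀ w, ∑ x ∈ univ.filter (fun x => ω x = w),
      Pool.Agent.H71.WE.td (⟨src, tgt⟩ : Pool.Agent.H71.WE.Gr (Fin n) (Fin e)) (A ∪ Aᶜ) u v univ x =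
      load src tgt u v ω w := by
    intro w
    rw [hu]
    rfl
  have h1 := Pool.Agent.H71.WE.All.gen (Fin n) (Fin e) (Fin m) ⟨src, tgt⟩ A Aᶜ u v univ k ω
    disjoint_compl_right hω
    (by
      rintro X ⟨a, ha, ha'⟩ ⟨b, hb, hb'⟩
      rw [h0] at ha' hb'
      exact hcut X a b ha hb ha' hb')
    (by
      simp only [h0]
      rw [card_univ, Fintype.card_fin]
      exact hodd)
  obtain ⟨F, _, h2, h3⟩ := h1
  exact ⟨F, fun i i' hi => h2 i (mem_univ _) i' (mem_univ _) hi,
    fun i S ha hb => h3 i (mem_univ _) S ha hb⟩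

end Pool.Agent.Results.MP_b683d6_co.EulerianLinkage
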