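import Pool.Agent.H71.WF.EC
import Pool.Agent.H71.WF.Nec
import Pool.Agent.H71.WF.Half

/-!
# Which systems of `2k` pairs are always linked in `2k`-edge-connected graphs?

A multigraph is given by `src tgt : E → V` (loops and parallel edges are allowed).  `cut` is the
number of edges with exactly one end in `S`, and `EdgeConnected c` says that every cut has at
least `c` edges.  `Connects src tgt F a b`: the set of edges `F` meets every cut that separates
`a` from `b` (equivalently, `F` contains a path from `a` to `b`).  `Linked`: the pairs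
`(u i, v i)` are joined by pairwise edge-disjoint paths.

The pattern of the pairs is a demand graph with vertex set `W` and edges `a i - b i`.
`AllEven a b`: every union of components of the demand graph (equivalently, every
component) has an even number of edges.

The last part is the half-integral form: any `K` pairs, each joined by two paths, every edge in
at most two of the `2 * K` paths, if the cuts which separate terminals have at least `K` edges.
-/

set_option autoImplicit false

namespace Pool.Agent.Results.MP_b683d6_co.EvenComponents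

open Finset

/-- number of edges with exactly one end in `S` -/
def cut {V E : Type} [DecidableEq V] [Fintype E] (src tgt : E → V) (S : Finset V) : ℕ :=
  (Finset.univ.filter (fun x : E =>
    (src x ∈ S ∧ tgt x ∉ S) ∨ (src x ∉ S ∧ tgt x ∈ S))).card

/-- every cut has at least `c` edges -/
def EdgeConnected {V E : Type} [Fintype V] [DecidableEq V] [Fintype E] (c : ℕ)
    (src tgt : E → V) : Prop :=
  ∀ S : Finset V, S.Nonempty → S ≠ Finset.univ → c ≤ cut src tgt S

/-- `F` contains a path from `a` to `b` (cut form) -/
def Connects {V E : Type} (src tgt : E → V) (F : Finset E) (a b : V) : Prop :=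
  ∀ S : Finset V, a ∈ S → b ∉ S →
    ∃ x ∈ F, (src x ∈ S ∧ tgt x ∉ S) ∨ (src x ∉ S ∧ tgt x ∈ S)

/-- the pairs `(u i, v i)` are joined by pairwise edge-disjoint paths -/
def Linked {V E : Type} (src tgt : E → V) {m : ℕ} (u v : Fin m → V) : Prop :=
  ∃ F : Fin m → Finset E, (∀ i j, i ≠ j → Disjoint (F i) (F j)) ∧
    ∀ i, Connects src tgt (F i) (u i) (v i)

/-- every component of the demand graph with edges `a i - b i` has an even number of edges -/
def AllEven {W : Type} [DecidableEq W] {m : ℕ} (a b : Fin m → W) : Prop :=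
  ∀ S : Finset W, (∀ i, a i ∈ S ↔ b i ∈ S) →
    Even (Finset.univ.filter (fun i => a i ∈ S)).card

theorem even (k : ℕ) (W : Type) [Fintype W] [DecidableEq W] (a b : Fin (2 * k) → W)
    (h : AllEven a b) (V E : Type) [Fintype V] [DecidableEq V] [Fintype E]
    (src tgt : E → V) (hG : EdgeConnected (2 * k) src tgt) (φ : W → V) :
    Linked src tgt (fun i => φ (a i)) (fun i => φ (b i)) := by
  classical
  have h' : ∀ X : Finset V, (∀ i, φ (a i) ∈ X ↔ φ (b i) ∈ X) →
      Even (univ.filter (fun i => φ (a i) ∈ X)).card := by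
    intro X hX
    have := h (univ.filter (fun w => φ w ∈ X)) (by
      intro i
      simpa using hX i)
    simpa using this
  obtain ⟨F, _, h2, h3⟩ := Pool.Agent.H71.WF.ec
    (⟨src, tgt⟩ : Pool.Agent.H71.WE.Gr V E) univ k (by rw [Fintype.card_fin])
    (fun X hX hX' => hG X hX hX') (fun i => φ (a i)) (fun i => φ (b i)) h'
  exact ⟨F, h2, h3⟩

theorem odd (k : ℕ) (W : Type) [Fintype W] [DecidableEq W] (a b : Fin (2 * k) → W) :
    ¬ AllEven a b → (∃ f : W → Bool, ∀ i, f (a i) ≠ f (b i)) →
      ∃ (n e : ℕ) (src tgt : Fin e → Fin n) (φ : W → Fin n),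
        Function.Injective φ ∧ EdgeConnected (2 * k) src tgt ∧
        ¬ Linked src tgt (fun i => φ (a i)) (fun i => φ (b i)) := by
  rintro h ⟨f, hf⟩
  classical
  unfold AllEven at h
  push Not at h
  obtain ⟨S, hS, hodd⟩ := h
  let G := Pool.Agent.H71.WF.HG k (Pool.Agent.H71.WF.hub S f)
  let eV := Fintype.equivFin (W ⊕ Fin 4)
  let eE := Fintype.equivFin ((W × Fin (2 * k)) ⊕ (Fin 4 × Fin k))
  refine ⟨_, _, fun x => eV (G.s (eE.symm x)), fun x => eV (G.t (eE.symm x)),
    fun w => eV (Sum.inl w), fun w w' hw => Sum.inl_injective (eV.injective hw), ?_, ?_⟩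
  · intro X hX hX'
    have h1 := Pool.Agent.H71.WF.hg_ec k (Pool.Agent.H71.WF.hub S f) (X.map eV.symm.toEmbedding)
      (by simpa using hX) (by
        intro h2
        apply hX'
        ext x
        simp only [mem_univ, iff_true]
        have h3 : eV.symm x ∈ X.map eV.symm.toEmbedding := h2 ▸ mem_univ _
        simpa using h3)
    refine h1.trans ?_
    unfold cut Pool.Agent.H71.WE.cn
    rw [← card_map eE.toEmbedding]
    apply card_le_card
    intro x hx
    rw [mem_map] at hx
    obtain ⟨y, hy, rfl⟩ := hx
    rw [mem_filter] at hy ⊢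
    refine ⟨mem_univ _, ?_⟩
    have hm : ∀ z : W ⊕ Fin 4, z ∈ X.map eV.symm.toEmbedding ↔ eV z ∈ X := by
      intro z
      constructor
      · intro hz
        rw [mem_map] at hz
        obtain ⟨t, ht, rfl⟩ := hz
        simpa using ht
      · intro hz
        rw [mem_map]
        exact ⟨eV z, hz, by simp⟩
    have h4 := hy.2
    unfold Pool.Agent.H71.WE.Cr at h4
    rw [hm, hm] at h4
    simpa [G] using h4
  · rintro ⟨F, h1, h2⟩
    refine Pool.Agent.H71.WF.nec k S f a b hf hS hodd
      (fun i => (F i).map eE.symm.toEmbedding) ?_ ?_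
    · intro i j hij
      rw [disjoint_map]
      exact h1 i j hij
    · intro i X hX hX'
      obtain ⟨x, hx, hc⟩ := h2 i (X.map eV.toEmbedding) (by simpa using hX)
        (by simpa using hX')
      refine ⟨eE.symm x, ?_, ?_⟩
      · simpa using hx
      · unfold Pool.Agent.H71.WE.Cr
        simpa [G] using hc

/-- **Demand graphs all of whose components are even are linked in every `2k`-edge-connected
graph; for bipartite demand graphs with `2k` edges no others are.  Half-integral form for any
`K` pairs.** -/
theorem result :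
    (∀ (k : ℕ) (W : Type) [Fintype W] [DecidableEq W] (a b : Fin (2 * k) → W),
      (AllEven a b → ∀ (V E : Type) [Fintype V] [DecidableEq V] [Fintype E]
        (src tgt : E → V), EdgeConnected (2 * k) src tgt → ∀ φ : W → V,
        Linked src tgt (fun i => φ (a i)) (fun i => φ (b i))) ∧
      (¬ AllEven a b → (∃ f : W → Bool, ∀ i, f (a i) ≠ f (b i)) →
        ∃ (n e : ℕ) (src tgt : Fin e → Fin n) (φ : W → Fin n),
          Function.Injective φ ∧ EdgeConnected (2 * k) src tgt ∧
          ¬ Linked src tgt (fun i => φ (a i)) (fun i => φ (b i)))) ∧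
    (∀ (K : ℕ) (V E : Type) [Fintype V] [DecidableEq V] [Fintype E] [DecidableEq E]
      (src tgt : E → V) (u v : Fin K → V),
      (∀ S : Finset V, (∃ i, u i ∈ S ∨ v i ∈ S) → (∃ i, u i ∉ S ∨ v i ∉ S) →
        K ≤ cut src tgt S) →
      ∃ F : Fin K → Bool → Finset E, (∀ i s, Connects src tgt (F i s) (u i) (v i)) ∧
        ∀ x : E, (Finset.univ.filter (fun p : Fin K × Bool => x ∈ F p.1 p.2)).card ≤ 2) := by
  refine ⟨fun k W _ _ a b => ⟨fun h V E _ _ _ src tgt hG φ => even k W a b h V E src tgt hG φ,
    fun h hf => odd k W a b h hf⟩, ?_⟩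
  intro K V E _ _ _ _ src tgt u v hG
  exact Pool.Agent.H71.WF.half (⟨src, tgt⟩ : Pool.Agent.H71.WE.Gr V E) K u v hG

end Pool.Agent.Results.MP_b683d6_co.EvenComponents
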