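import Pool.Agent.H71.CN.Dir

/-!
# Weak linkage of simple graphs with an expanding part

All graphs are finite and simple. `Linked G u v`: the pairs `(u i, v i)` are joined by pairwise
edge-disjoint paths. A vertex of degree `d` can be joined to another vertex by at most `d`
edge-disjoint paths, so `K ≤ min degree` is necessary for the linkage of all systems of `K` pairs.
-/

set_option autoImplicit false

namespace Pool.Agent.Results.MP_b683d6_co.ExpandingGraphs

open Finset Classical

section
variable {V : Type} [Fintype V]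

/-- the number of neighbours of `x` in `S` -/
noncomputable def nb (G : SimpleGraph V) (S : Finset V) (x : V) : ℕ :=
  (S.filter (fun y => G.Adj x y)).card

/-- the degree of `x` -/
noncomputable def deg (G : SimpleGraph V) (x : V) : ℕ := nb G univ x

/-- The graph induced on `W` has conductance at least `φ`: for every set `S` of vertices of `W`
with at most half of the degree sum (of the induced graph), at least `φ` times the degree sum of
`S` edges lead from `S` to `W \ S`. -/
def Expands (G : SimpleGraph V) (W : Finset V) (φ : ℝ) : Prop :=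
  ∀ S ⊆ W, 2 * ∑ x ∈ S, nb G W x ≤ ∑ x ∈ W, nb G W x →
    φ * (∑ x ∈ S, nb G W x : ℕ) ≤ (∑ x ∈ S, nb G (W \ S) x : ℕ)

/-- the number of edges with exactly one end in `X` -/
noncomputable def cut (G : SimpleGraph V) (X : Finset V) : ℕ := ∑ x ∈ X, nb G Xᶜ x

/-- the number of ends of nontrivial demands in `X` -/
noncomputable def ends {K : ℕ} (u v : Fin K → V) (X : Finset V) : ℕ :=
  (univ.filter (fun i => u i ≠ v i ∧ u i ∈ X)).card +
    (univ.filter (fun i => u i ≠ v i ∧ v i ∈ X)).card

/-- there are pairwise edge-disjoint paths joining `u i` and `v i`, for all `i` -/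
def Linked {K : ℕ} (G : SimpleGraph V) (u v : Fin K → V) : Prop :=
  ∃ P : ∀ i, G.Walk (u i) (v i), (∀ i, (P i).IsPath) ∧
    ∀ i j, i ≠ j → ∀ e ∈ (P i).edges, e ∉ (P j).edges

end

lemma ends_eq {V : Type} [Fintype V] [DecidableEq V] {K : ℕ} (u v : Fin K → V) (X : Finset V) :
    ∑ x ∈ X, (Pool.Agent.H71.CN.xat (Pool.Agent.H71.CN.xN u v) u v x).card = ends u v X := by
  have h1 : ∀ x ∈ X, (Pool.Agent.H71.CN.xat (Pool.Agent.H71.CN.xN u v) u v x).card =
      (univ.filter (fun i => u i ≠ v i ∧ u i = x)).card +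
      (univ.filter (fun i => u i ≠ v i ∧ v i = x)).card := by
    intro x _
    rw [← Finset.card_union_of_disjoint]
    · congr 1
      ext i
      unfold Pool.Agent.H71.CN.xat Pool.Agent.H71.CN.xN
      simp only [mem_filter, mem_union, mem_univ, true_and]
      tauto
    · rw [Finset.disjoint_left]
      intro i hi hi'
      rw [mem_filter] at hi hi'
      exact hi.2.1 (hi.2.2.trans hi'.2.2.symm)
  have h2 : ∀ w : Fin K → V, ∑ x ∈ X, (univ.filter (fun i => u i ≠ v i ∧ w i = x)).card =
      (univ.filter (fun i => u i ≠ v i ∧ w i ∈ X)).card := by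
    intro w
    rw [← Finset.card_biUnion]
    · congr 1
      ext i
      simp only [mem_biUnion, mem_filter, mem_univ, true_and]
      constructor
      · rintro ⟨x, hx, h1, rfl⟩
        exact ⟨h1, hx⟩
      · rintro ⟨h1, h2⟩
        exact ⟨w i, h2, h1, rfl⟩
    · intro x _ y _ hxy
      refine Finset.disjoint_left.2 ?_
      intro i hi hi'
      rw [mem_filter] at hi hi'
      exact hxy (hi.2.2.symm.trans hi'.2.2)
  rw [Finset.sum_congr rfl h1, Finset.sum_add_distrib, h2, h2]
  unfold ends
  congr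

/-- **Weak linkage up to the minimum degree.** Let `G` be a simple graph of minimum degree at least
`K` and `W` a nonempty set of vertices such that the graph induced on `W` has conductance at least
`φ`, where `φ ^ 6 * K ≥ 10 ^ 16`, and every vertex of `W` has few neighbours outside `W`. Then `K`
demands are linked if they satisfy the cut condition for the routing to `W` at all sets `X` of at
least three vertices which are not contained in `W` and contain at most `√K + 1` vertices of `W`.
For `W = V` there is no such set: a graph with conductance at least `φ` and minimum degree at least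
`K` links all systems of `K` demands. -/
theorem result (φ : ℝ) (h0 : 0 < φ) (h1 : φ ≤ 1) (V : Type) [Fintype V] (G : SimpleGraph V)
    (K : ℕ) (hK : 10 ^ 16 ≤ φ ^ 6 * K) (hdeg : ∀ x, K ≤ deg G x) (W : Finset V)
    (hW : W.Nonempty) (hexp : Expands G W φ)
    (hout : ∀ x ∈ W, 80000 * (nb G Wᶜ x : ℝ) ≤ φ ^ 2 * nb G W x) (u v : Fin K → V)
    (hcut : ∀ X : Finset V, ¬ X ⊆ W → 3 ≤ X.card → (X ∩ W).card ≤ Nat.sqrt K + 1 →
      ends u v X ≤ cut G X) : Linked G u v := by
  obtain ⟨E, hEdef⟩ : ∃ E, E = ⌈1 / φ⌉₊ := ⟨_, rfl⟩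
  have hE0 : 1 / φ ≤ E := hEdef ▸ Nat.le_ceil _
  have h13 : 1 ≤ 1 / φ := by rw [le_div_iff₀ h0]; linarith
  have hE1 : (E : ℝ) ≤ 2 / φ := by
    have h2 : (E : ℝ) < 1 / φ + 1 := hEdef ▸ Nat.ceil_lt_add_one (by positivity)
    have h4 : 2 / φ = 1 / φ + 1 / φ := by ring
    linarith
  have hE : 1 ≤ E := by
    have h4 : (1 : ℝ) ≤ E := le_trans h13 hE0
    exact_mod_cast h4
  -- from `φ` to `E`
  have key : ∀ a b : ℕ, φ * (a : ℝ) ≤ b → a ≤ E * b := by
    intro a b hab
    have h2 : (a : ℝ) ≤ 1 / φ * b := by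
      rw [div_mul_eq_mul_div, one_mul, le_div_iff₀ h0]
      linarith
    have h3 : (a : ℝ) ≤ (E * b : ℕ) := by
      push_cast
      exact le_trans h2 (mul_le_mul_of_nonneg_right hE0 (Nat.cast_nonneg b))
    exact_mod_cast h3
  have hKE : 20000000000000 * E ^ 6 ≤ K := by
    have h2 : (E : ℝ) ^ 6 ≤ (2 / φ) ^ 6 := pow_le_pow_left₀ (Nat.cast_nonneg E) hE1 6
    have h3 : (2 / φ) ^ 6 = 64 / φ ^ 6 := by
      rw [div_pow]
      norm_num
    have hφ6 : 0 < φ ^ 6 := by positivity
    have h4 : (10 : ℝ) ^ 16 / φ ^ 6 ≤ K := by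
      rw [div_le_iff₀ hφ6]
      linarith
    have h5 : ((20000000000000 * E ^ 6 : ℕ) : ℝ) ≤ (K : ℝ) := by
      push_cast
      have h6 : 20000000000000 * (64 / φ ^ 6) ≤ (10 : ℝ) ^ 16 / φ ^ 6 := by
        rw [← mul_div_assoc, div_le_div_iff_of_pos_right hφ6]
        norm_num
      rw [h3] at h2
      linarith
    exact_mod_cast h5
  have hE6 : 1 ≤ E ^ 6 := Nat.one_le_pow _ _ hE
  have hout' : ∀ (W : Finset V) (x : V), Pool.Agent.H71.CN.oW G W x = nb G Wᶜ x := by
    intro W x
    unfold Pool.Agent.H71.CN.oW nb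
    congr 1
    ext y
    rw [mem_filter, mem_filter, mem_compl]
    have := mem_univ y
    tauto
  have hbd : ∀ X : Finset V, Pool.Agent.H71.CN.bd G X = cut G X := by
    intro X
    unfold Pool.Agent.H71.CN.bd cut
    exact Finset.sum_congr rfl (fun x _ => hout' X x)
  refine Pool.Agent.H71.CN.hub_exp E hE V G K W hKE hW hdeg ?_ ?_ u v ?_
  · intro x hx
    have h2 := hout x hx
    rw [hout']
    have h3 : ((20000 * (E ^ 2 * nb G Wᶜ x) : ℕ) : ℝ) ≤ (nb G W x : ℝ) := by
      push_cast
      have h4 : (E : ℝ) ^ 2 ≤ (2 / φ) ^ 2 := pow_le_pow_left₀ (Nat.cast_nonneg E) hE1 2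
      have h5 : (E : ℝ) ^ 2 * nb G Wᶜ x ≤ (2 / φ) ^ 2 * nb G Wᶜ x :=
        mul_le_mul_of_nonneg_right h4 (Nat.cast_nonneg _)
      have h6 : 20000 * ((2 / φ) ^ 2 * (nb G Wᶜ x : ℝ)) = 80000 * nb G Wᶜ x / φ ^ 2 := by
        field_simp
        ring
      have h7 : 80000 * (nb G Wᶜ x : ℝ) / φ ^ 2 ≤ nb G W x := by
        rw [div_le_iff₀ (by positivity)]
        linarith
      linarith
    exact_mod_cast h3
  · intro S hS hvol
    exact key _ _ (hexp S hS hvol)
  · intro X hX3 hXs
    by_cases hXW : X ⊆ W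
    · rw [Finset.inter_eq_left.2 hXW] at hXs
      have h2 := Pool.Agent.H71.CN.bd_small G K hdeg X
      have h3 : 3 * (X.card - 1) ≤ K := by
        have h4 := Nat.sqrt_le' K
        have h5 : 10 ≤ Nat.sqrt K := by
          rw [Nat.le_sqrt']
          omega
        have h6 : 3 * Nat.sqrt K ≤ Nat.sqrt K ^ 2 := by nlinarith
        omega
      have h4 := Pool.Agent.H71.CN.cut_small X.card K (Pool.Agent.H71.CN.bd G X) hX3 h3 h2
      have h5 := Pool.Agent.H71.CN.ends_le u v X
      omega
    · have h2 := hcut X hXW hX3 hXs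
      rw [ends_eq, hbd]
      exact h2

end Pool.Agent.Results.MP_b683d6_co.ExpandingGraphs
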